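import Pool.Agent.W103.RT.QB

/-! Multisets and the identities for `ep`, `jp`, `Np`. -/

set_option autoImplicit false

namespace Pool.Agent.W103.RT

open Polynomial Pool.Agent.W181.RT

/-- multisets of `i` numbers below `N` -/
noncomputable def gp (i N : ℕ) : Polynomial ℕ :=
  ∑ lam ∈ (Finset.range N).sym i, (X : Polynomial ℕ) ^ ((lam : Multiset ℕ).sum)

theorem gp_zero (N : ℕ) : gp 0 N = 1 := by
  unfold gp
  rw [Finset.sym_zero, Finset.sum_singleton]
  rfl

theorem gp_none (i : ℕ) : gp (i + 1) 0 = 0 := by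
  unfold gp
  rw [Finset.range_zero, Finset.sym_empty, Finset.sum_empty]

theorem gp_succ (i N : ℕ) : gp (i + 1) (N + 1) = gp (i + 1) N + X ^ N * gp i (N + 1) := by
  classical
  unfold gp
  have h1 : (Finset.range (N + 1)).sym (i + 1) = (Finset.range N).sym (i + 1) ∪
      ((Finset.range (N + 1)).sym i).image (fun t => N ::ₛ t) := by
    ext m
    rw [Finset.mem_union, Finset.mem_image, Finset.mem_sym_iff, Finset.mem_sym_iff]
    constructor
    · intro h
      by_cases hN : N ∈ m
      · right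
        obtain ⟨t, rfl⟩ := Sym.exists_cons_of_mem hN
        exact ⟨t, Finset.mem_sym_iff.2 fun a ha => h a (Sym.mem_cons_of_mem ha), rfl⟩
      · left
        intro a ha
        have h2 := Finset.mem_range.1 (h a ha)
        have h3 : a ≠ N := fun he => hN (he ▸ ha)
        exact Finset.mem_range.2 (by omega)
    · rintro (h | ⟨t, ht, rfl⟩) a ha
      · have := Finset.mem_range.1 (h a ha)
        exact Finset.mem_range.2 (by omega)
      · rw [Finset.mem_sym_iff] at ht
        rcases Sym.mem_cons.1 ha with rfl | ha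
        · exact Finset.mem_range.2 (by omega)
        · exact ht a ha
  rw [h1, Finset.sum_union]
  · congr 1
    rw [Finset.sum_image, Finset.mul_sum]
    · apply Finset.sum_congr rfl
      intro t _
      rw [Sym.coe_cons, Multiset.sum_cons, pow_add]
    · intro t _ t' _ h
      exact Sym.cons_inj_right N t t' |>.1 h
  · rw [Finset.disjoint_left]
    intro m hm hm'
    rw [Finset.mem_image] at hm'
    obtain ⟨t, _, rfl⟩ := hm'
    rw [Finset.mem_sym_iff] at hm
    have := Finset.mem_range.1 (hm N (Sym.mem_cons_self N t))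
    omega

theorem gp_eq (N : ℕ) : ∀ i, gp i (N + 1) = qs (N + i) i := by
  induction N with
  | zero =>
    intro i
    induction i with
    | zero => rw [gp_zero, qs_zero]
    | succ i ih => rw [gp_succ, gp_none, ih, pow_zero, one_mul, zero_add, Nat.zero_add,
        Nat.zero_add, qs_self, qs_self]
  | succ N ih =>
    intro i
    induction i with
    | zero => rw [gp_zero, qs_zero]
    | succ i ihi =>
      rw [gp_succ, ihi, ih (i + 1)]
      have e1 : N + 1 + (i + 1) = (N + (i + 1)) + 1 := by ring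
      rw [e1, qs_p2 (N + (i + 1)) i (by omega), add_comm]
      have e2 : N + 1 + i = N + (i + 1) := by ring
      have e3 : N + (i + 1) - i = N + 1 := by omega
      rw [e2, e3]

theorem t_QB1 : S_QB1 := by
  intro qb h i a
  rw [qb_eq h]
  exact gp_eq a i

/-! ### the identities -/

theorem cancel {a b c : Polynomial ℕ} (h : a + c = b + c) : a = b := by
  ext n
  have h1 := congrArg (fun p : Polynomial ℕ => p.coeff n) h
  simp only [coeff_add] at h1
  exact Nat.add_right_cancel h1

/-- `∑_{j<J} y^j [m+j, j]` -/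
noncomputable def Aj (y : Polynomial ℕ) (m J : ℕ) : Polynomial ℕ :=
  ∑ j ∈ Finset.range J, y ^ j * qs (m + j) j

/-- `∑_{j<J} (y X)^j [m+j-1, j]` -/
noncomputable def Bj (y : Polynomial ℕ) (m J : ℕ) : Polynomial ℕ :=
  ∑ j ∈ Finset.range J, y ^ j * X ^ j * qs (m + j - 1) j

theorem AB (y : Polynomial ℕ) (m J : ℕ) : Aj y m (J + 1) = Bj y m (J + 1) + y * Aj y m J := by
  induction J with
  | zero =>
    unfold Aj Bj
    simp [qs_zero]
  | succ J ih =>
    have h1 : Aj y m (J + 1 + 1) = Aj y m (J + 1) + y ^ (J + 1) * qs (m + (J + 1)) (J + 1) := by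
      unfold Aj; rw [Finset.sum_range_succ]
    have h2 : Bj y m (J + 1 + 1) = Bj y m (J + 1) +
        y ^ (J + 1) * X ^ (J + 1) * qs (m + (J + 1) - 1) (J + 1) := by
      unfold Bj; rw [Finset.sum_range_succ]
    have h3 : Aj y m (J + 1) = Aj y m J + y ^ J * qs (m + J) J := by
      unfold Aj; rw [Finset.sum_range_succ]
    have h4 : qs (m + (J + 1)) (J + 1) = qs (m + J) J + X ^ (J + 1) * qs (m + J) (J + 1) :=
      qs_p1 (m + J) J
    have h5 : m + (J + 1) - 1 = m + J := by omega
    rw [h1, h2, h5, h4]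
    calc Aj y m (J + 1) + y ^ (J + 1) * (qs (m + J) J + X ^ (J + 1) * qs (m + J) (J + 1))
        = (Bj y m (J + 1) + y * Aj y m J) +
          y ^ (J + 1) * (qs (m + J) J + X ^ (J + 1) * qs (m + J) (J + 1)) := by rw [← ih]
      _ = Bj y m (J + 1) + y ^ (J + 1) * X ^ (J + 1) * qs (m + J) (J + 1) +
          y * (Aj y m J + y ^ J * qs (m + J) J) := by ring
      _ = _ := by rw [← h3]

/-- the summand of `ep` -/
noncomputable def bp (ℓ k m : ℕ) : Polynomial ℕ :=
  qs k m * ∑ j ∈ Finset.range (ℓ - m + 1), (X : Polynomial ℕ) ^ (j * (k - m + 1)) * qs (m + j - 1) j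

theorem bp_eq (ℓ k m : ℕ) : bp ℓ k m = qs k m * Bj (X ^ (k - m)) m (ℓ - m + 1) := by
  unfold bp Bj
  congr 1
  apply Finset.sum_congr rfl
  intro j _
  congr 1
  rw [← pow_mul, ← pow_add]
  congr 1
  ring

theorem bp_succ (ℓ k m : ℕ) (hk : m + 1 ≤ k) (hl : m + 1 ≤ ℓ) :
    bp ℓ k (m + 1) = qs k (m + 1) * Aj (X ^ (k - m)) m (ℓ - m) := by
  unfold bp Aj
  have h1 : ℓ - (m + 1) + 1 = ℓ - m := by omega
  rw [h1]
  congr 1
  apply Finset.sum_congr rfl
  intro j _
  have h2 : k - (m + 1) + 1 = k - m := by omega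
  have h3 : m + 1 + j - 1 = m + j := by omega
  rw [h2, h3, ← pow_mul, Nat.mul_comm j]

theorem AJ (y : Polynomial ℕ) (m J : ℕ) :
    Aj y m J + y ^ J * qs (m + J) J = Bj y m (J + 1) + y * Aj y m J := by
  rw [← AB]
  unfold Aj
  rw [Finset.sum_range_succ]

theorem bp_step (ℓ k m : ℕ) (hk : m + 1 ≤ k) (hl : m + 1 ≤ ℓ) :
    bp ℓ k m + X ^ (m + 1) * bp ℓ k (m + 1) =
      bp ℓ k (m + 1) + X ^ ((k - m) * (ℓ - m)) * qs k m * qs ℓ m := by
  rw [bp_eq ℓ k m, bp_succ ℓ k m hk hl]
  have h1 := AJ (X ^ (k - m)) m (ℓ - m)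
  have h2 : qs (m + (ℓ - m)) (ℓ - m) = qs ℓ m := by
    have e1 : m + (ℓ - m) = ℓ := by omega
    rw [e1, qs_symm ℓ m (by omega)]
  rw [h2, ← pow_mul] at h1
  have h3 : qs k m + X ^ (m + 1) * qs k (m + 1) = X ^ (k - m) * qs k m + qs k (m + 1) := by
    rw [← qs_p1, ← qs_p2 k m (by omega)]
  generalize Aj (X ^ (k - m)) m (ℓ - m) = A at *
  generalize Bj (X ^ (k - m)) m (ℓ - m + 1) = B at *
  generalize (X : Polynomial ℕ) ^ ((k - m) * (ℓ - m)) = Z at *
  generalize (X : Polynomial ℕ) ^ (k - m) = y at *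
  generalize (X : Polynomial ℕ) ^ (m + 1) = w at *
  generalize qs k m = a at *
  generalize qs k (m + 1) = b at *
  generalize qs ℓ m = c at *
  have h4 : a * B + w * (b * A) + a * (y * A) = b * A + Z * a * c + a * (y * A) := by
    calc a * B + w * (b * A) + a * (y * A) = a * (B + y * A) + w * (b * A) := by ring
      _ = a * (A + Z * c) + w * (b * A) := by rw [h1]
      _ = (a + w * b) * A + Z * a * c := by ring
      _ = (y * a + b) * A + Z * a * c := by rw [h3]
      _ = _ := by ring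
  exact cancel h4

/-- `ep` with `qs` -/
theorem ep_succ (ℓ k m : ℕ) : ep qs ℓ k (m + 1) = ep qs ℓ k m + X ^ (m + 1) * bp ℓ k (m + 1) := by
  unfold ep
  rw [Finset.sum_Icc_succ_top (by omega), add_assoc, mul_assoc]
  rfl

theorem jp_succ (ℓ k m : ℕ) : jp qs ℓ k (m + 1) =
    jp qs ℓ k m + X ^ ((k - m) * (ℓ - m)) * qs k m * qs ℓ m := by
  unfold jp
  rw [Finset.sum_range_succ]

theorem bp_zero (ℓ k : ℕ) : bp ℓ k 0 = 1 := by
  unfold bp
  rw [qs_zero, one_mul, Finset.sum_range_succ', Finset.sum_eq_zero]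
  · rw [qs_zero]; simp
  · intro j _
    rw [qs_big _ _ (by omega), mul_zero]

/-- `ep m = bp m + jp m` -/
theorem ep_eq (ℓ k m : ℕ) (hk : m ≤ k) (hl : m ≤ ℓ) :
    ep qs ℓ k m = bp ℓ k m + jp qs ℓ k m := by
  induction m with
  | zero =>
    rw [bp_zero]
    unfold ep jp
    simp
  | succ m ih =>
    rw [ep_succ, ih (by omega) (by omega), jp_succ]
    have h := bp_step ℓ k m hk hl
    calc bp ℓ k m + jp qs ℓ k m + X ^ (m + 1) * bp ℓ k (m + 1)
        = (bp ℓ k m + X ^ (m + 1) * bp ℓ k (m + 1)) + jp qs ℓ k m := by ring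
      _ = _ := by rw [h]; ring

theorem qb_fun {qb : ℕ → ℕ → Polynomial ℕ} (h : QB qb) : qb = qs := by
  funext n r
  exact qb_eq h n r

theorem t_NUM1 : S_NUM1 := by
  intro qb h ℓ k m hm
  rw [qb_fun h]
  have hk : m + 1 ≤ k := le_trans hm (min_le_left _ _)
  have hl : m + 1 ≤ ℓ := le_trans hm (min_le_right _ _)
  have h1 := ep_eq ℓ k (m + 1) hk hl
  calc ep qs ℓ k (m + 1) + X ^ (m + 1) * jp qs ℓ k (m + 1)
      = ep qs ℓ k m + X ^ (m + 1) * (bp ℓ k (m + 1) + jp qs ℓ k (m + 1)) := by
        rw [ep_succ]; ring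
    _ = _ := by rw [← h1]

theorem t_NUM2 : S_NUM2 := by
  intro qb h ℓ k
  rw [qb_fun h]
  rw [ep_eq ℓ k (min k ℓ) (min_le_left _ _) (min_le_right _ _), jp_succ, add_comm]
  congr 1
  rcases Nat.le_total k ℓ with hkl | hkl
  · rw [Nat.min_eq_left hkl, bp_eq, qs_self, Nat.sub_self, pow_zero, Nat.zero_mul, pow_zero,
      one_mul, one_mul, one_mul]
    have h1 := AJ 1 k (ℓ - k)
    rw [one_pow, one_mul, one_mul, add_comm] at h1
    have h2 := cancel h1
    rw [← h2]
    have e1 : k + (ℓ - k) = ℓ := by omega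
    rw [e1, qs_symm ℓ k hkl]
  · rw [Nat.min_eq_right hkl]
    unfold bp
    rw [Nat.sub_self, Nat.mul_zero, pow_zero, one_mul, qs_self]
    simp [qs_zero]

theorem t_NUM3 : S_NUM3 := by
  intro qb h ℓ k m hm D hD
  rw [qb_fun h]
  have key : reflect (k * ℓ) (Np ℓ k m) = jp qs ℓ k m := by
    unfold Np jp
    have hadd : ∀ (s : Finset ℕ) (f : ℕ → Polynomial ℕ), reflect (k * ℓ) (∑ i ∈ s, f i) =
        ∑ i ∈ s, reflect (k * ℓ) (f i) := by
      intro s f
      classical
      induction s using Finset.induction_on with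
      | empty => simp
      | insert a s ha ih => rw [Finset.sum_insert ha, Finset.sum_insert ha, reflect_add, ih]
    rw [hadd]
    apply Finset.sum_congr rfl
    intro i hi
    have hi' := Finset.mem_range.1 hi
    have hik : i ≤ k := by
      have := min_le_left k ℓ; omega
    have hil : i ≤ ℓ := by
      have := min_le_right k ℓ; omega
    have g1 : Gp i (k - i) = qs k i := by
      have := gp_eq (k - i) i
      rw [Nat.sub_add_cancel hik] at this
      exact this
    have g2 : Gp i (ℓ - i) = qs ℓ i := by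
      have := gp_eq (ℓ - i) i
      rw [Nat.sub_add_cancel hil] at this
      exact this
    rw [g1, g2]
    obtain ⟨a, rfl⟩ : ∃ a, k = i + a := ⟨k - i, by omega⟩
    obtain ⟨b, rfl⟩ : ∃ b, ℓ = i + b := ⟨ℓ - i, by omega⟩
    have ea : i + a - i = a := by omega
    have eb : i + b - i = b := by omega
    rw [ea, eb]
    have e1 : (i + a) * (i + b) = (i * i + a * b) + i * a + i * b := by ring
    have d1 : ((X : Polynomial ℕ) ^ (i * i)).natDegree ≤ i * i + a * b :=
      le_trans (natDegree_X_pow_le _) (Nat.le_add_right _ _)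
    have d2 : (qs (i + a) i).natDegree ≤ i * a := by
      have := qs_deg (i + a) i
      rwa [ea] at this
    have d3 : (qs (i + b) i).natDegree ≤ i * b := by
      have := qs_deg (i + b) i
      rwa [eb] at this
    have r2 : reflect (i * a) (qs (i + a) i) = qs (i + a) i := by
      have := qs_refl (i + a) i hik
      rwa [ea] at this
    have r3 : reflect (i * b) (qs (i + b) i) = qs (i + b) i := by
      have := qs_refl (i + b) i hil
      rwa [eb] at this
    rw [e1, reflect_mul _ _ (le_trans natDegree_mul_le (Nat.add_le_add d1 d2)) d3,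
      reflect_mul _ _ d1 d2, r2, r3]
    congr 2
    have := reflect_monomial (R := ℕ) (i * i + a * b) (i * i)
    rw [this, revAt_le (Nat.le_add_right _ _)]
    congr 1
    omega
  rw [← key, coeff_reflect, revAt_le hD]

end Pool.Agent.W103.RT
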