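import Pool.Agent.W181.RT.Props

/-! q-binomial coefficients over `ℕ[X]`. -/

set_option autoImplicit false

namespace Pool.Agent.W103.RT

open Polynomial Pool.Agent.W181.RT

/-- subsets of `range n`. -/
noncomputable def qs (n r : ℕ) : Polynomial ℕ :=
  ∑ S ∈ (Finset.range n).powersetCard r, (X : Polynomial ℕ) ^ ((∑ s ∈ S, s) - r * (r - 1) / 2)

theorem qb_eq {qb : ℕ → ℕ → Polynomial ℕ} (h : QB qb) (n r : ℕ) : qb n r = qs n r := by
  rw [h n r]
  unfold qs
  have h1 : Finset.range n = (Finset.univ : Finset (Fin n)).map Fin.valEmbedding := by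
    rw [Fin.map_valEmbedding_univ]
    ext x
    simp
  rw [h1, Finset.powersetCard_map, Finset.sum_map]
  apply Finset.sum_congr rfl
  intro S _
  congr 2
  show _ = ∑ s ∈ S.map Fin.valEmbedding, s
  rw [Finset.sum_map]
  rfl

theorem tri_succ (r : ℕ) : (r + 1) * (r + 1 - 1) / 2 = r * (r - 1) / 2 + r := by
  rw [Nat.add_sub_cancel]
  rcases r with _ | r
  · rfl
  · rw [Nat.add_sub_cancel]
    have : (r + 1 + 1) * (r + 1) = (r + 1) * r + 2 * (r + 1) := by ring
    rw [this, Nat.add_mul_div_left _ _ (by norm_num)]

/-- the sum of `r` different numbers -/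
theorem tri_le (r : ℕ) : ∀ S : Finset ℕ, S.card = r → r * (r - 1) / 2 ≤ ∑ s ∈ S, s := by
  induction r with
  | zero => intro S _; exact Nat.zero_le _
  | succ r ih =>
    intro S hS
    have hne : S.Nonempty := by
      rw [← Finset.card_pos, hS]; omega
    have hm := S.max'_mem hne
    have h1 : S ⊆ Finset.range (S.max' hne + 1) := by
      intro x hx
      rw [Finset.mem_range]
      have := S.le_max' x hx
      omega
    have h2 := Finset.card_le_card h1
    rw [Finset.card_range, hS] at h2
    have h3 := ih (S.erase (S.max' hne)) (by rw [Finset.card_erase_of_mem hm, hS]; rfl)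
    rw [← Finset.sum_erase_add S _ hm, tri_succ]
    omega

theorem qs_zero (n : ℕ) : qs n 0 = 1 := by
  unfold qs
  simp

theorem qs_big (n r : ℕ) (h : n < r) : qs n r = 0 := by
  unfold qs
  rw [Finset.powersetCard_eq_empty.2 (by rwa [Finset.card_range]), Finset.sum_empty]

/-- second Pascal rule -/
theorem qs_p2 (n r : ℕ) (hr : r ≤ n) : qs (n + 1) (r + 1) = X ^ (n - r) * qs n r + qs n (r + 1) := by
  unfold qs
  rw [Finset.range_add_one, Finset.powersetCard_succ_insert (Finset.notMem_range_self),
    Finset.sum_union, add_comm]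
  · congr 1
    rw [Finset.sum_image, Finset.mul_sum]
    · apply Finset.sum_congr rfl
      intro S hS
      rw [Finset.mem_powersetCard] at hS
      have hn : n ∉ S := fun h => Finset.notMem_range_self (hS.1 h)
      rw [Finset.sum_insert hn, ← pow_add]
      congr 1
      have h1 := tri_le r S hS.2
      rw [tri_succ]
      omega
    · intro S hS S' hS' he
      rw [Finset.mem_coe, Finset.mem_powersetCard] at hS hS'
      have hn : n ∉ S := fun h => Finset.notMem_range_self (hS.1 h)
      have hn' : n ∉ S' := fun h => Finset.notMem_range_self (hS'.1 h)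
      have := congrArg (fun A : Finset ℕ => A.erase n) he
      simp only [Finset.erase_insert hn, Finset.erase_insert hn'] at this
      exact this
  · rw [Finset.disjoint_left]
    intro S hS hS'
    rw [Finset.mem_powersetCard] at hS
    rw [Finset.mem_image] at hS'
    obtain ⟨S', _, rfl⟩ := hS'
    exact Finset.notMem_range_self (hS.1 (Finset.mem_insert_self n S'))

theorem qs_self (n : ℕ) : qs n n = 1 := by
  induction n with
  | zero => exact qs_zero 0
  | succ n ih => rw [qs_p2 n n le_rfl, ih, qs_big n (n + 1) (by omega), Nat.sub_self]; simp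

/-- first Pascal rule -/
theorem qs_p1 (n : ℕ) : ∀ r, qs (n + 1) (r + 1) = qs n r + X ^ (r + 1) * qs n (r + 1) := by
  induction n with
  | zero =>
    intro r
    rcases r with _ | r
    · rw [qs_self, qs_self, qs_big 0 _ (by omega), mul_zero, add_zero]
    · rw [qs_big _ _ (by omega), qs_big _ _ (by omega), qs_big _ _ (by omega), mul_zero, add_zero]
  | succ n ih =>
    intro r
    rcases Nat.lt_trichotomy r (n + 1) with hlt | heq | hgt
    · rw [qs_p2 (n + 1) r (by omega)]
      rcases r with _ | r
      · have a1 := ih 0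
        have b1 := qs_p2 n 0 (by omega)
        rw [qs_zero] at a1 b1
        rw [qs_zero]
        calc X ^ (n + 1 - 0) * 1 + qs (n + 1) (0 + 1)
            = X ^ (n + 1) * 1 + (1 + X ^ (0 + 1) * qs n (0 + 1)) := by rw [a1, Nat.sub_zero]
          _ = 1 + X ^ (0 + 1) * (X ^ n * 1 + qs n (0 + 1)) := by ring
          _ = 1 + X ^ (0 + 1) * qs (n + 1) (0 + 1) := by rw [b1, Nat.sub_zero]
      · have a1 := ih r
        have a2 := ih (r + 1)
        have b1 := qs_p2 n r (by omega)
        have b2 := qs_p2 n (r + 1) (by omega)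
        have h1 : n + 1 - (r + 1) = n - r := by omega
        have h5 : (X : Polynomial ℕ) ^ (n - r) * X ^ (r + 1) = X ^ (r + 1 + 1) * X ^ (n - (r + 1)) := by
          rw [← pow_add, ← pow_add]
          congr 1
          omega
        rw [h1]
        calc X ^ (n - r) * qs (n + 1) (r + 1) + qs (n + 1) (r + 1 + 1)
            = X ^ (n - r) * (qs n r + X ^ (r + 1) * qs n (r + 1)) +
              (qs n (r + 1) + X ^ (r + 1 + 1) * qs n (r + 1 + 1)) := by rw [← a1, ← a2]
          _ = (X ^ (n - r) * qs n r + qs n (r + 1)) + (X ^ (n - r) * X ^ (r + 1)) * qs n (r + 1) +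
              X ^ (r + 1 + 1) * qs n (r + 1 + 1) := by ring
          _ = (X ^ (n - r) * qs n r + qs n (r + 1)) +
              X ^ (r + 1 + 1) * (X ^ (n - (r + 1)) * qs n (r + 1) + qs n (r + 1 + 1)) := by
                rw [h5]; ring
          _ = _ := by rw [← b1, ← b2]
    · subst heq
      rw [qs_self, qs_self, qs_big (n + 1) _ (by omega), mul_zero, add_zero]
    · rw [qs_big _ _ (by omega), qs_big _ _ (by omega), qs_big _ _ (by omega), mul_zero, add_zero]

theorem qs_symm (n : ℕ) : ∀ r, r ≤ n → qs n r = qs n (n - r) := by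
  induction n with
  | zero => intro r hr; rw [Nat.le_zero.1 hr]
  | succ n ih =>
    intro r hr
    rcases r with _ | r
    · rw [qs_zero, Nat.sub_zero, qs_self]
    · rcases Nat.eq_or_lt_of_le hr with h | h
      · have h1 : n + 1 - (r + 1) = 0 := by omega
        rw [h1, qs_zero, h, qs_self]
      · obtain ⟨s, hs⟩ : ∃ s, n - r = s + 1 := ⟨n - r - 1, by omega⟩
        have h1 : n + 1 - (r + 1) = s + 1 := by omega
        rw [h1, qs_p1 n s, qs_p2 n r (by omega), ih r (by omega), ih (r + 1) (by omega), hs]
        have h2 : n - (r + 1) = s := by omega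
        rw [h2, add_comm]

theorem qs_deg (n : ℕ) : ∀ r, (qs n r).natDegree ≤ r * (n - r) := by
  induction n with
  | zero =>
    intro r
    rcases r with _ | r
    · rw [qs_zero]; simp
    · rw [qs_big _ _ (by omega)]; simp
  | succ n ih =>
    intro r
    rcases r with _ | r
    · rw [qs_zero]; simp
    · by_cases hr : r ≤ n
      · rw [qs_p2 n r hr]
        refine le_trans (natDegree_add_le _ _) (max_le ?_ ?_)
        · refine le_trans natDegree_mul_le ?_
          have h1 := ih r
          have h2 := natDegree_X_pow_le (R := ℕ) (n - r)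
          have h3 : (r + 1) * (n + 1 - (r + 1)) = (n - r) + r * (n - r) := by
            have : n + 1 - (r + 1) = n - r := by omega
            rw [this]; ring
          omega
        · refine le_trans (ih (r + 1)) (Nat.mul_le_mul_left _ (by omega))
      · rw [qs_big _ _ (by omega)]; simp

theorem qs_refl (n : ℕ) : ∀ r, r ≤ n → reflect (r * (n - r)) (qs n r) = qs n r := by
  induction n with
  | zero =>
    intro r hr
    rw [Nat.le_zero.1 hr, qs_zero]
    simp
  | succ n ih =>
    intro r hr
    rcases r with _ | r
    · rw [qs_zero]; simp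
    · have hr' : r ≤ n := by omega
      have e1 : (r + 1) * (n + 1 - (r + 1)) = (n - r) + r * (n - r) := by
        have : n + 1 - (r + 1) = n - r := by omega
        rw [this]; ring
      have t1 : reflect ((r + 1) * (n + 1 - (r + 1))) (X ^ (n - r) * qs n r) = qs n r := by
        rw [e1, reflect_mul _ _ (natDegree_X_pow_le _) (qs_deg n r), ih r hr']
        have : reflect (n - r) ((X : Polynomial ℕ) ^ (n - r)) = 1 := by
          have := reflect_monomial (R := ℕ) (n - r) (n - r)
          rw [this, revAt_le le_rfl, Nat.sub_self, pow_zero]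
        rw [this, one_mul]
      have t2 : reflect ((r + 1) * (n + 1 - (r + 1))) (qs n (r + 1)) =
          X ^ (r + 1) * qs n (r + 1) := by
        by_cases hrn : r + 1 ≤ n
        · have e2 : (r + 1) * (n + 1 - (r + 1)) = (r + 1) + (r + 1) * (n - (r + 1)) := by
            have : n + 1 - (r + 1) = (n - (r + 1)) + 1 := by omega
            rw [this]; ring
          have h5 := reflect_mul (1 : Polynomial ℕ) (qs n (r + 1)) (F := r + 1)
            (G := (r + 1) * (n - (r + 1))) (by simp) (qs_deg n (r + 1))
          rw [one_mul, ih (r + 1) hrn] at h5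
          rw [e2, h5]
          congr 1
          rw [← C_1, reflect_C, C_1, one_mul]
        · rw [qs_big _ _ (by omega)]; simp
      conv_lhs => rw [qs_p2 n r hr', reflect_add, t1, t2]
      rw [qs_p1]

theorem t_QB0 : S_QB0 := by
  intro qb h
  have hq : ∀ n r, qb n r = qs n r := qb_eq h
  simp only [hq]
  refine ⟨qs_zero, qs_big, qs_self, qs_p1, qs_p2, qs_symm, ?_, qs_deg⟩
  intro n r d hr hd
  conv_lhs => rw [← qs_refl n r hr, coeff_reflect, revAt_le hd]

end Pool.Agent.W103.RT
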